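import Mathlib

namespace Pool.Agent.Results.MP_8b2777_lc.NonPrimePowerDisproof

open Finset

/-- The integer `a_0 + a_1 N + ... + a_(n-1) N^(n-1)`: the residue modulo `N^n` of the `N`-adic
integer `a_0 + a_1 N + a_2 N^2 + ...` of the digit sequence `a`. -/
def prefixValue (N : ℕ) (a : ℕ → Fin N) (n : ℕ) : ℤ :=
  ∑ i ∈ range n, (((a i : Fin N) : ℕ) : ℤ) * (N : ℤ) ^ i

/-- The sequence `a` is eventually periodic. -/
def EventuallyPeriodic {N : ℕ} (a : ℕ → Fin N) : Prop :=
  ∃ m p : ℕ, 0 < p ∧ ∀ i, m ≤ i → a (i + p) = a i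

/-- The `N`-adic integer of the digit sequence `a` equals the fraction `u / g`, which is in lowest
terms and has denominator `g` coprime to `N` (equality in `Z_N` of `g * a` and `u` means congruence
modulo `N^n` for every `n`). -/
def IsFraction (N : ℕ) (a : ℕ → Fin N) (u g : ℤ) : Prop :=
  g ≠ 0 ∧ IsCoprime u g ∧ IsCoprime g (N : ℤ) ∧
    ∀ n : ℕ, (N : ℤ) ^ n ∣ g * prefixValue N a n - u

/-- The `N`-adic complexity of the word `a_0, ..., a_(n-1)`: the minimum (infimum) of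
`log_N max(|u|, |g|)` over all eventually periodic sequences `b` with the same first `n` terms, where
`u / g` is the `N`-adic integer of `b` in lowest terms. -/
noncomputable def prefixComplexity (N : ℕ) (a : ℕ → Fin N) (n : ℕ) : ℝ :=
  sInf {x : ℝ | ∃ (b : ℕ → Fin N) (u g : ℤ), EventuallyPeriodic b ∧ (∀ i, i < n → b i = a i) ∧
    IsFraction N b u g ∧ x = Real.logb N (max |u| |g| : ℤ)}

/-- The normalised complexity `δ_{N,n}(a)`. -/
noncomputable def normComplexity (N : ℕ) (a : ℕ → Fin N) (n : ℕ) : ℝ :=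
  prefixComplexity N a n / n

/-- The set `T(a)` of accumulation points of the sequence of normalised complexities. -/
def accPoints (N : ℕ) (a : ℕ → Fin N) : Set ℝ :=
  {x : ℝ | ∀ ε : ℝ, 0 < ε → ∀ M : ℕ, ∃ n : ℕ, M ≤ n ∧ 1 ≤ n ∧ |normComplexity N a n - x| < ε}

/-- Assertion (a) of the problem for the base `N`. -/
def AssertionA (N : ℕ) : Prop :=
  ∀ a : ℕ → Fin N, ¬ EventuallyPeriodic a → ∃ B : ℝ, accPoints N a = Set.Icc B (1 - B)

/-- Assertion (b) of the problem for the base `N`. -/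
def AssertionB (N : ℕ) : Prop :=
  ∀ B : ℝ, 0 ≤ B → B ≤ 1 / 2 → ¬ {a : ℕ → Fin N | accPoints N a = Set.Icc B (1 - B)}.Countable

/-! ### Digit expansions -/

lemma prefixValue_succ (N : ℕ) (a : ℕ → Fin N) (n : ℕ) :
    prefixValue N a (n + 1) = prefixValue N a n + (((a n : Fin N) : ℕ) : ℤ) * (N : ℤ) ^ n := by
  simp [prefixValue, Finset.sum_range_succ]

lemma prefixValue_mod (N : ℕ) (a : ℕ → Fin N) (n k : ℕ) :
    (N : ℤ) ^ n ∣ prefixValue N a (n + k) - prefixValue N a n := by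
  induction k with
  | zero => simp
  | succ k ih =>
    rw [← add_assoc, prefixValue_succ]
    have : (N : ℤ) ^ n ∣ (((a (n + k) : Fin N) : ℕ) : ℤ) * (N : ℤ) ^ (n + k) := by
      rw [pow_add]
      exact ⟨(((a (n + k) : Fin N) : ℕ) : ℤ) * (N : ℤ) ^ k, by ring⟩
    have h2 := dvd_add ih this
    rw [show prefixValue N a (n + k) + (((a (n + k) : Fin N) : ℕ) : ℤ) * (N : ℤ) ^ (n + k) -
      prefixValue N a n = prefixValue N a (n + k) - prefixValue N a n +
      (((a (n + k) : Fin N) : ℕ) : ℤ) * (N : ℤ) ^ (n + k) by ring]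
    exact h2

/-- For every residue `x` modulo `N` there is a digit. -/
noncomputable def digit (N : ℕ) (hN : 0 < N) (x : ℤ) : Fin N :=
  ⟨(x % (N : ℤ)).toNat, by
    have h1 : 0 ≤ x % (N : ℤ) := Int.emod_nonneg _ (by exact_mod_cast hN.ne')
    have h2 : x % (N : ℤ) < N := Int.emod_lt_of_pos _ (by exact_mod_cast hN)
    omega⟩

lemma digit_coe (N : ℕ) (hN : 0 < N) (x : ℤ) : (((digit N hN x : Fin N) : ℕ) : ℤ) = x % (N : ℤ) := by
  have h1 : 0 ≤ x % (N : ℤ) := Int.emod_nonneg _ (by exact_mod_cast hN.ne')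
  simp [digit, Int.toNat_of_nonneg h1]

/-- carries of the expansion of `c / g`, where `h` is an inverse of `g` modulo `N` -/
noncomputable def carry (N : ℕ) (g h : ℤ) (c : ℤ) : ℕ → ℤ
  | 0 => c
  | (i + 1) => (carry N g h c i - g * ((h * carry N g h c i) % (N : ℤ))) / (N : ℤ)

noncomputable def digits (N : ℕ) (hN : 0 < N) (g h c : ℤ) (i : ℕ) : Fin N :=
  digit N hN (h * carry N g h c i)

lemma carry_succ (N : ℕ) (hN : 0 < N) (g h c : ℤ) (hgh : (N : ℤ) ∣ g * h - 1) (i : ℕ) :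
    (N : ℤ) * carry N g h c (i + 1) =
      carry N g h c i - g * (((digits N hN g h c i : Fin N) : ℕ) : ℤ) := by
  rw [digits, digit_coe, carry]
  apply Int.mul_ediv_cancel'
  set x := carry N g h c i
  have h1 : (N : ℤ) ∣ h * x - (h * x) % (N : ℤ) := Int.dvd_self_sub_emod
  have h2 : x - g * ((h * x) % (N : ℤ)) = g * (h * x - (h * x) % (N : ℤ)) - (g * h - 1) * x := by ring
  rw [h2]
  exact dvd_sub (Dvd.dvd.mul_left h1 g) (Dvd.dvd.mul_right hgh x)

lemma digits_spec (N : ℕ) (hN : 0 < N) (g h c : ℤ) (hgh : (N : ℤ) ∣ g * h - 1) (k : ℕ) :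
    c = g * prefixValue N (digits N hN g h c) k + (N : ℤ) ^ k * carry N g h c k := by
  induction k with
  | zero => simp [prefixValue, carry]
  | succ k ih =>
    rw [prefixValue_succ, pow_succ, mul_assoc, carry_succ N hN g h c hgh k]
    calc c = g * prefixValue N (digits N hN g h c) k + (N : ℤ) ^ k * carry N g h c k := ih
      _ = _ := by ring

lemma carry_bound (N : ℕ) (hN : 2 ≤ N) (g h c : ℤ) (hgh : (N : ℤ) ∣ g * h - 1) (i : ℕ) :
    |carry N g h c i| ≤ |c| + 2 * |g| := by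
  induction i with
  | zero => simp [carry]
  | succ i ih =>
    have hN0 : 0 < N := by omega
    have h1 := carry_succ N hN0 g h c hgh i
    set d : ℤ := (((digits N hN0 g h c i : Fin N) : ℕ) : ℤ)
    have hd0 : 0 ≤ d := by positivity
    have hd1 : d < N := by
      have := (digits N hN0 g h c i).isLt
      exact Nat.cast_lt.2 this
    have h2 : |(N : ℤ) * carry N g h c (i + 1)| ≤ |carry N g h c i| + |g| * d := by
      rw [h1]
      calc |carry N g h c i - g * d| ≤ |carry N g h c i| + |g * d| := abs_sub _ _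
        _ = |carry N g h c i| + |g| * d := by rw [abs_mul, abs_of_nonneg hd0]
    rw [abs_mul, Nat.abs_cast] at h2
    have hNc : (2 : ℤ) ≤ N := by exact_mod_cast hN
    have hg0 : 0 ≤ |g| := abs_nonneg g
    have hc0 : 0 ≤ |c| := abs_nonneg c
    by_contra hcon
    push Not at hcon
    have h3 : (N : ℤ) * (|c| + 2 * |g|) < (N : ℤ) * |carry N g h c (i + 1)| := by
      apply mul_lt_mul_of_pos_left hcon; linarith
    have h4 : |g| * d ≤ |g| * N := mul_le_mul_of_nonneg_left hd1.le hg0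
    nlinarith [mul_nonneg hg0 (sub_nonneg.2 hNc), mul_nonneg hc0 (sub_nonneg.2 hNc)]

lemma digits_eventuallyPeriodic (N : ℕ) (hN : 2 ≤ N) (hN0 : 0 < N) (g h c : ℤ)
    (hgh : (N : ℤ) ∣ g * h - 1) : EventuallyPeriodic (digits N hN0 g h c) := by
  -- pigeonhole on the carries
  have hfin : (Set.Icc (-(|c| + 2 * |g|)) (|c| + 2 * |g|)).Finite := Set.finite_Icc _ _
  have hmaps : Set.MapsTo (carry N g h c) Set.univ (Set.Icc (-(|c| + 2 * |g|)) (|c| + 2 * |g|)) := by
    intro i _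
    exact abs_le.1 (carry_bound N hN g h c hgh i)
  obtain ⟨i, -, j, -, hij, heq⟩ := Set.infinite_univ.exists_lt_map_eq_of_mapsTo hmaps hfin
  have hstep : ∀ k, carry N g h c (i + k) = carry N g h c (j + k) := by
    intro k
    induction k with
    | zero => simpa using heq
    | succ k ih =>
      rw [← add_assoc, ← add_assoc, carry, carry, ih]
  refine ⟨i, j - i, by omega, ?_⟩
  intro n hn
  have h1 := hstep (n - i)
  have e1 : i + (n - i) = n := by omega
  have e2 : j + (n - i) = n + (j - i) := by omega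
  rw [e1, e2] at h1
  simp only [digits, h1]

/-- Eventually periodic sequences represent rationals. -/
lemma EventuallyPeriodic.exists_int {N : ℕ} (hN : 2 ≤ N) {a : ℕ → Fin N} (ha : EventuallyPeriodic a) :
    ∃ u g : ℤ, g ≠ 0 ∧ ∀ n : ℕ, (N : ℤ) ^ n ∣ g * prefixValue N a n - u := by
  obtain ⟨m, p, hp, hper⟩ := ha
  -- X n = prefixValue (n + p) - N^p * prefixValue n is constant for n ≥ m
  have hconst : ∀ k, prefixValue N a (m + k + p) - (N : ℤ) ^ p * prefixValue N a (m + k) =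
      prefixValue N a (m + p) - (N : ℤ) ^ p * prefixValue N a m := by
    intro k
    induction k with
    | zero => simp
    | succ k ih =>
      have e1 : m + (k + 1) + p = (m + k + p) + 1 := by ring
      have e2 : m + (k + 1) = (m + k) + 1 := by ring
      rw [e1, e2, prefixValue_succ, prefixValue_succ, hper (m + k) (by omega), ← ih, pow_add]
      ring
  refine ⟨prefixValue N a (m + p) - (N : ℤ) ^ p * prefixValue N a m, 1 - (N : ℤ) ^ p, ?_, ?_⟩
  · have h1 : (1 : ℤ) < (N : ℤ) ^ p := by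
      apply one_lt_pow₀ (by exact_mod_cast (by omega : 1 < N)) hp.ne'
    intro h
    linarith
  · intro n
    rw [← hconst n]
    have h1 := prefixValue_mod N a n (m + p)
    have h2 := prefixValue_mod N a n m
    have e1 : n + (m + p) = m + n + p := by ring
    have e2 : n + m = m + n := by ring
    rw [e1] at h1
    rw [e2] at h2
    have h3 := dvd_sub (Dvd.dvd.mul_left h2 ((N : ℤ) ^ p)) h1
    rw [show (1 - (N : ℤ) ^ p) * prefixValue N a n - (prefixValue N a (m + n + p) -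
      (N : ℤ) ^ p * prefixValue N a (m + n)) = (N : ℤ) ^ p * (prefixValue N a (m + n) -
      prefixValue N a n) - (prefixValue N a (m + n + p) - prefixValue N a n) by ring]
    exact h3

/-! ### The sequence attached to a coprime factorisation -/

lemma exists_residue (P Q : ℕ) (hPQ : Nat.Coprime P Q) (n : ℕ) :
    ∃ A : ℤ, (P : ℤ) ^ n ∣ A ∧ (Q : ℤ) ^ n ∣ A - 1 := by
  have h : IsCoprime ((P : ℤ) ^ n) ((Q : ℤ) ^ n) := (Nat.isCoprime_iff_coprime.2 hPQ).pow
  obtain ⟨x, y, hxy⟩ := h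
  refine ⟨x * (P : ℤ) ^ n, Dvd.intro_left x rfl, ⟨-y, ?_⟩⟩
  linear_combination hxy

/-- Existence of the digit sequence of the `N`-adic integer which is `0` modulo all powers of `P`
and `1` modulo all powers of `Q`. -/
lemma exists_seq (P Q : ℕ) (hP : 0 < P) (hQ : 0 < Q) (hPQ : Nat.Coprime P Q) :
    ∃ a : ℕ → Fin (P * Q), ∀ n, (P : ℤ) ^ n ∣ prefixValue (P * Q) a n ∧
      (Q : ℤ) ^ n ∣ prefixValue (P * Q) a n - 1 := by
  classical
  have hN : 0 < P * Q := Nat.mul_pos hP hQ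
  -- extension step
  have hstep : ∀ (n : ℕ) (V : ℤ), ((P : ℤ) ^ n ∣ V ∧ (Q : ℤ) ^ n ∣ V - 1) →
      ∃ d : Fin (P * Q), (P : ℤ) ^ (n + 1) ∣ V + ((d : ℕ) : ℤ) * ((P * Q : ℕ) : ℤ) ^ n ∧
        (Q : ℤ) ^ (n + 1) ∣ V + ((d : ℕ) : ℤ) * ((P * Q : ℕ) : ℤ) ^ n - 1 := by
    intro n V ⟨h1, h2⟩
    obtain ⟨A, hA1, hA2⟩ := exists_residue P Q hPQ (n + 1)
    -- A ≡ V mod N^n
    have hc : IsCoprime ((P : ℤ) ^ n) ((Q : ℤ) ^ n) := (Nat.isCoprime_iff_coprime.2 hPQ).pow
    have h3 : (P : ℤ) ^ n ∣ A - V :=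
      dvd_sub ((pow_dvd_pow _ (Nat.le_succ n)).trans hA1) h1
    have h4 : (Q : ℤ) ^ n ∣ A - V := by
      have := dvd_sub ((pow_dvd_pow _ (Nat.le_succ n)).trans hA2) h2
      rw [show A - V = (A - 1) - (V - 1) by ring]
      exact this
    have h5 : (P : ℤ) ^ n * (Q : ℤ) ^ n ∣ A - V := hc.mul_dvd h3 h4
    obtain ⟨c, hc5⟩ := h5
    refine ⟨digit (P * Q) hN c, ?_⟩
    rw [digit_coe]
    have h6 : ((P * Q : ℕ) : ℤ) ∣ c - c % ((P * Q : ℕ) : ℤ) := Int.dvd_self_sub_emod
    obtain ⟨e, he⟩ := h6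
    have h7 : V + (c % ((P * Q : ℕ) : ℤ)) * ((P * Q : ℕ) : ℤ) ^ n =
        A - e * (((P * Q : ℕ) : ℤ) ^ (n + 1)) := by
      have : c % ((P * Q : ℕ) : ℤ) = c - ((P * Q : ℕ) : ℤ) * e := by linarith
      rw [this]
      have h8 : A = V + (P : ℤ) ^ n * (Q : ℤ) ^ n * c := by linarith
      rw [h8]
      push_cast
      ring
    rw [h7]
    have h9 : (P : ℤ) ^ (n + 1) ∣ e * (((P * Q : ℕ) : ℤ) ^ (n + 1)) := by
      refine ⟨e * (Q : ℤ) ^ (n + 1), ?_⟩
      push_cast
      ring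
    have h10 : (Q : ℤ) ^ (n + 1) ∣ e * (((P * Q : ℕ) : ℤ) ^ (n + 1)) := by
      refine ⟨e * (P : ℤ) ^ (n + 1), ?_⟩
      push_cast
      ring
    refine ⟨dvd_sub hA1 h9, ?_⟩
    have := dvd_sub hA2 h10
    rw [show A - e * (((P * Q : ℕ) : ℤ) ^ (n + 1)) - 1 = (A - 1) -
      e * (((P * Q : ℕ) : ℤ) ^ (n + 1)) by ring]
    exact this
  -- build by recursion the pairs (value)
  let good : ℕ → ℤ → Prop := fun n V => (P : ℤ) ^ n ∣ V ∧ (Q : ℤ) ^ n ∣ V - 1
  let S : (n : ℕ) → {V : ℤ // good n V} := fun n => Nat.rec ⟨0, by simp [good]⟩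
    (fun n V => ⟨V.1 + (((hstep n V.1 V.2).choose : ℕ) : ℤ) * ((P * Q : ℕ) : ℤ) ^ n,
      (hstep n V.1 V.2).choose_spec⟩) n
  let a : ℕ → Fin (P * Q) := fun n => (hstep n (S n).1 (S n).2).choose
  have hS : ∀ n, (S n).1 = prefixValue (P * Q) a n := by
    intro n
    induction n with
    | zero => simp [prefixValue, S]
    | succ n ih =>
      rw [prefixValue_succ, ← ih]
  refine ⟨a, fun n => ?_⟩
  rw [← hS n]
  exact (S n).2

/-! ### The prefix complexity of that sequence -/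

section main

variable {P Q : ℕ} (hPQ : Nat.Coprime P Q) (hQ : 1 < Q) (hlt : Q < P)
  (a : ℕ → Fin (P * Q)) (ha : ∀ n, (P : ℤ) ^ n ∣ prefixValue (P * Q) a n ∧
      (Q : ℤ) ^ n ∣ prefixValue (P * Q) a n - 1)

include hPQ hQ hlt ha

/-- Any fraction reproducing the first `n ≥ 1` digits has numerator at least `P^n`. -/
lemma lower {n : ℕ} (hn : 1 ≤ n) {b : ℕ → Fin (P * Q)} {u g : ℤ} (hb : ∀ i, i < n → b i = a i)
    (hfr : IsFraction (P * Q) b u g) : (P : ℤ) ^ n ≤ |u| := by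
  obtain ⟨hg0, hug, hgN, hdiv⟩ := hfr
  have hval : prefixValue (P * Q) b n = prefixValue (P * Q) a n := by
    apply Finset.sum_congr rfl
    intro i hi
    rw [hb i (Finset.mem_range.1 hi)]
  have h1 := hdiv n
  rw [hval] at h1
  obtain ⟨hPa, hQa⟩ := ha n
  have hPN : (P : ℤ) ^ n ∣ ((P * Q : ℕ) : ℤ) ^ n := by
    push_cast; rw [mul_pow]; exact dvd_mul_right _ _
  have hQN : (Q : ℤ) ^ n ∣ ((P * Q : ℕ) : ℤ) ^ n := by
    push_cast; rw [mul_pow]; exact dvd_mul_left _ _
  have hPu : (P : ℤ) ^ n ∣ u := by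
    have h2 := dvd_sub (Dvd.dvd.mul_left hPa g) (hPN.trans h1)
    rw [show g * prefixValue (P * Q) a n - (g * prefixValue (P * Q) a n - u) = u by ring] at h2
    exact h2
  have hu0 : u ≠ 0 := by
    intro hu
    have h3 : (Q : ℤ) ^ n ∣ g := by
      have h4 := dvd_sub (hQN.trans h1) (Dvd.dvd.mul_left hQa g)
      rw [hu, show g * prefixValue (P * Q) a n - 0 - g * (prefixValue (P * Q) a n - 1) = g by
        ring] at h4
      exact h4
    have h5 : (Q : ℤ) ∣ g := (dvd_pow_self _ (by omega)).trans h3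
    have h6 : (Q : ℤ) ∣ ((P * Q : ℕ) : ℤ) := by push_cast; exact dvd_mul_left _ _
    have h7 : IsUnit (Q : ℤ) := hgN.isUnit_of_dvd' h5 h6
    have h8 := Int.isUnit_iff.1 h7
    omega
  exact Int.le_of_dvd (abs_pos.2 hu0) ((dvd_abs _ _).2 hPu)

/-- The value `P^n` is attained by the fraction `P^n / (P^n - Q^n)`. -/
lemma upper {n : ℕ} (hn : 1 ≤ n) : ∃ (b : ℕ → Fin (P * Q)) (u g : ℤ), EventuallyPeriodic b ∧
    (∀ i, i < n → b i = a i) ∧ IsFraction (P * Q) b u g ∧ max |u| |g| = (P : ℤ) ^ n := by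
  have hP : 0 < P := by omega
  have hN : 2 ≤ P * Q := by nlinarith
  have hN0 : 0 < P * Q := by omega
  have hlt' : (Q : ℤ) ^ n < (P : ℤ) ^ n :=
    pow_lt_pow_left₀ (by exact_mod_cast hlt) (by positivity) (by omega)
  have hcop : IsCoprime ((P : ℤ)) ((Q : ℤ)) := Nat.isCoprime_iff_coprime.2 hPQ
  have hcopn : IsCoprime ((P : ℤ) ^ n) ((Q : ℤ) ^ n) := hcop.pow
  set u : ℤ := (P : ℤ) ^ n with hu
  set g : ℤ := (P : ℤ) ^ n - (Q : ℤ) ^ n with hg
  have hgpos : 0 < g := by rw [hg]; linarith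
  have hgP : IsCoprime g (P : ℤ) := by
    have h1 : IsCoprime g ((P : ℤ) ^ n) := by
      obtain ⟨x, y, hxy⟩ := hcopn
      refine ⟨-y, x + y, ?_⟩
      rw [hg]; linear_combination hxy
    exact (IsCoprime.pow_right_iff (by omega)).1 h1
  have hgQ : IsCoprime g (Q : ℤ) := by
    have h1 : IsCoprime g ((Q : ℤ) ^ n) := by
      obtain ⟨x, y, hxy⟩ := hcopn
      refine ⟨x, x + y, ?_⟩
      rw [hg]; linear_combination hxy
    exact (IsCoprime.pow_right_iff (by omega)).1 h1
  have hgN : IsCoprime g ((P * Q : ℕ) : ℤ) := by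
    push_cast
    exact hgP.mul_right hgQ
  have hug : IsCoprime u g := by
    rw [hu]
    exact (IsCoprime.pow_right hgP).symm
  -- the common prefix value
  obtain ⟨hPa, hQa⟩ := ha n
  have hdivn : ((P * Q : ℕ) : ℤ) ^ n ∣ u - g * prefixValue (P * Q) a n := by
    have h1 : (P : ℤ) ^ n ∣ u - g * prefixValue (P * Q) a n :=
      dvd_sub (by rw [hu]) (Dvd.dvd.mul_left hPa g)
    have h2 : (Q : ℤ) ^ n ∣ u - g * prefixValue (P * Q) a n := by
      have h3 : u - g * prefixValue (P * Q) a n = (Q : ℤ) ^ n -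
        g * (prefixValue (P * Q) a n - 1) := by rw [hu, hg]; ring
      rw [h3]
      exact dvd_sub (dvd_refl _) (Dvd.dvd.mul_left hQa g)
    have h4 := hcopn.mul_dvd h1 h2
    push_cast
    rw [mul_pow]
    exact h4
  obtain ⟨c, hc⟩ := hdivn
  obtain ⟨h, h', hh⟩ := hgN
  have hgh : ((P * Q : ℕ) : ℤ) ∣ g * h - 1 := ⟨-h', by linear_combination hh⟩
  let d := digits (P * Q) hN0 g h c
  let b : ℕ → Fin (P * Q) := fun i => if i < n then a i else d (i - n)
  have hbn : ∀ i, i < n → b i = a i := fun i hi => by simp [b, hi]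
  have hbn' : ∀ k, b (n + k) = d k := fun k => by simp [b]
  have hvaln : prefixValue (P * Q) b n = prefixValue (P * Q) a n := by
    apply Finset.sum_congr rfl
    intro i hi
    rw [hbn i (Finset.mem_range.1 hi)]
  have hval : ∀ k, prefixValue (P * Q) b (n + k) = prefixValue (P * Q) a n +
      ((P * Q : ℕ) : ℤ) ^ n * prefixValue (P * Q) d k := by
    intro k
    induction k with
    | zero =>
      have h0 : prefixValue (P * Q) d 0 = 0 := by simp [prefixValue]
      rw [Nat.add_zero, hvaln, h0, mul_zero, add_zero]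
    | succ k ih =>
      rw [← add_assoc, prefixValue_succ, ih, prefixValue_succ, hbn' k, pow_add]
      ring
  refine ⟨b, u, g, ?_, hbn, ⟨hgpos.ne', hug, ⟨h, h', hh⟩, ?_⟩, ?_⟩
  · obtain ⟨m, p, hp, hper⟩ := digits_eventuallyPeriodic (P * Q) hN hN0 g h c hgh
    refine ⟨n + m, p, hp, ?_⟩
    intro i hi
    obtain ⟨k, rfl⟩ : ∃ k, i = n + k := ⟨i - n, by omega⟩
    rw [add_assoc, hbn', hbn']
    exact hper k (by omega)
  · intro k
    have hmain : ∀ k, ((P * Q : ℕ) : ℤ) ^ (n + k) ∣ g * prefixValue (P * Q) b (n + k) - u := by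
      intro k
      have h1 := digits_spec (P * Q) hN0 g h c hgh k
      refine ⟨- carry (P * Q) g h c k, ?_⟩
      rw [hval k, pow_add]
      have h2 : u = g * prefixValue (P * Q) a n + ((P * Q : ℕ) : ℤ) ^ n * c := by
        linear_combination hc
      rw [h2]
      have h3 : c - g * prefixValue (P * Q) d k = ((P * Q : ℕ) : ℤ) ^ k * carry (P * Q) g h c k := by
        linear_combination h1
      linear_combination (-((P * Q : ℕ) : ℤ) ^ n) * h3
    have h1 := (pow_dvd_pow ((P * Q : ℕ) : ℤ) (Nat.le_add_left k n)).trans (hmain k)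
    have h2 := prefixValue_mod (P * Q) b k n
    rw [add_comm k n] at h2
    have h3 := dvd_sub h1 (Dvd.dvd.mul_left h2 g)
    rw [show g * prefixValue (P * Q) b (n + k) - u - g * (prefixValue (P * Q) b (n + k) -
      prefixValue (P * Q) b k) = g * prefixValue (P * Q) b k - u by ring] at h3
    exact h3
  · have h1 : |u| = (P : ℤ) ^ n := by rw [hu]; exact abs_of_nonneg (by positivity)
    have h2 : |g| ≤ (P : ℤ) ^ n := by
      rw [abs_of_pos hgpos, hg]
      have : (0 : ℤ) < (Q : ℤ) ^ n := by positivity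
      linarith
    rw [h1]
    exact max_eq_left h2

lemma prefixComplexity_eq {n : ℕ} (hn : 1 ≤ n) :
    prefixComplexity (P * Q) a n = n * Real.logb ((P * Q : ℕ) : ℝ) P := by
  have hP : 0 < P := by omega
  have hN : 1 < P * Q := by nlinarith
  have hN1 : (1 : ℝ) < ((P * Q : ℕ) : ℝ) := by exact_mod_cast hN
  have hval : Real.logb ((P * Q : ℕ) : ℝ) (((P : ℤ) ^ n : ℤ) : ℝ) =
      n * Real.logb ((P * Q : ℕ) : ℝ) P := by
    push_cast
    rw [Real.logb_pow]
  have hleast : IsLeast {x : ℝ | ∃ (b : ℕ → Fin (P * Q)) (u g : ℤ), EventuallyPeriodic b ∧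
      (∀ i, i < n → b i = a i) ∧ IsFraction (P * Q) b u g ∧
      x = Real.logb ((P * Q : ℕ) : ℝ) (max |u| |g| : ℤ)} (n * Real.logb ((P * Q : ℕ) : ℝ) P) := by
    constructor
    · obtain ⟨b, u, g, h1, h2, h3, h4⟩ := upper hPQ hQ hlt a ha hn
      exact ⟨b, u, g, h1, h2, h3, by rw [h4, hval]⟩
    · rintro x ⟨b, u, g, h1, h2, h3, rfl⟩
      rw [← hval]
      apply Real.logb_le_logb_of_le hN1
      · have : (0 : ℤ) < (P : ℤ) ^ n := by positivity
        exact_mod_cast this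
      · have := (lower hPQ hQ hlt a ha hn h2 h3).trans (le_max_left |u| |g|)
        exact_mod_cast this
  exact hleast.csInf_eq

lemma normComplexity_eq {n : ℕ} (hn : 1 ≤ n) :
    normComplexity (P * Q) a n = Real.logb ((P * Q : ℕ) : ℝ) P := by
  rw [normComplexity, prefixComplexity_eq hPQ hQ hlt a ha hn]
  have : (n : ℝ) ≠ 0 := by exact_mod_cast (by omega : n ≠ 0)
  field_simp

lemma accPoints_eq : accPoints (P * Q) a = {Real.logb ((P * Q : ℕ) : ℝ) P} := by
  ext x
  simp only [accPoints, Set.mem_ofPred_eq, Set.mem_singleton_iff]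
  constructor
  · intro h
    by_contra hne
    obtain ⟨n, -, h1, h2⟩ := h (|Real.logb ((P * Q : ℕ) : ℝ) P - x|)
      (abs_pos.2 (sub_ne_zero.2 (Ne.symm hne))) 0
    rw [normComplexity_eq hPQ hQ hlt a ha h1] at h2
    exact lt_irrefl _ h2
  · rintro rfl ε hε M
    refine ⟨M + 1, by omega, by omega, ?_⟩
    rw [normComplexity_eq hPQ hQ hlt a ha (by omega)]
    simpa using hε

lemma not_eventuallyPeriodic : ¬ EventuallyPeriodic a := by
  intro hper
  have hN : 2 ≤ P * Q := by nlinarith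
  obtain ⟨u, g, hg, hdiv⟩ := hper.exists_int hN
  have hP1 : 1 < P := by omega
  have hu : u = 0 := by
    by_contra hu
    -- P^n divides u for every n
    have h1 : ∀ n, (P : ℤ) ^ n ∣ u := by
      intro n
      have hPN : (P : ℤ) ^ n ∣ ((P * Q : ℕ) : ℤ) ^ n := by
        push_cast; rw [mul_pow]; exact dvd_mul_right _ _
      have h2 := dvd_sub (Dvd.dvd.mul_left (ha n).1 g) (hPN.trans (hdiv n))
      rw [show g * prefixValue (P * Q) a n - (g * prefixValue (P * Q) a n - u) = u by ring] at h2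
      exact h2
    have h3 := h1 (u.natAbs)
    have h4 := Int.le_of_dvd (abs_pos.2 hu) ((dvd_abs _ _).2 h3)
    have h5 : u.natAbs < P ^ u.natAbs := Nat.lt_pow_self hP1
    have h6 : (|u| : ℤ) = (u.natAbs : ℤ) := Int.abs_eq_natAbs u
    rw [h6] at h4
    have h7 : P ^ u.natAbs ≤ u.natAbs := by exact_mod_cast h4
    omega
  have h1 : ∀ n, (Q : ℤ) ^ n ∣ g := by
    intro n
    have hQN : (Q : ℤ) ^ n ∣ ((P * Q : ℕ) : ℤ) ^ n := by
      push_cast; rw [mul_pow]; exact dvd_mul_left _ _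
    have h2 := dvd_sub (hQN.trans (hdiv n)) (Dvd.dvd.mul_left (ha n).2 g)
    rw [hu, show g * prefixValue (P * Q) a n - 0 - g * (prefixValue (P * Q) a n - 1) = g by
        ring] at h2
    exact h2
  have h3 := h1 (g.natAbs)
  have h4 := Int.le_of_dvd (abs_pos.2 hg) ((dvd_abs _ _).2 h3)
  have h5 : g.natAbs < Q ^ g.natAbs := Nat.lt_pow_self hQ
  have h6 : (|g| : ℤ) = (g.natAbs : ℤ) := Int.abs_eq_natAbs g
  rw [h6] at h4
  have h7 : Q ^ g.natAbs ≤ g.natAbs := by exact_mod_cast h4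
  omega

end main

/-- A number at least two which is not a prime power is a product of two coprime factors bigger
than one. -/
lemma exists_coprime_factors {N : ℕ} (hN : 2 ≤ N) (hpp : ¬ IsPrimePow N) :
    ∃ P Q : ℕ, N = P * Q ∧ Nat.Coprime P Q ∧ 1 < Q ∧ Q < P := by
  have hN0 : N ≠ 0 := by omega
  set p := N.minFac with hp
  have hpp' : p.Prime := Nat.minFac_prime (by omega)
  set A := ordProj[p] N with hA
  set B := ordCompl[p] N with hB
  have hmul : A * B = N := Nat.ordProj_mul_ordCompl_eq_self N p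
  have hcop : Nat.Coprime A B := by
    rw [hA]
    exact Nat.Coprime.pow_left _ (Nat.coprime_ordCompl hpp' hN0)
  have hA1 : 1 < A := by
    rw [hA]
    exact Nat.one_lt_pow (by
      have := hpp'.factorization_pos_of_dvd hN0 (Nat.minFac_dvd N)
      omega) hpp'.one_lt
  have hB1 : 1 < B := by
    by_contra hcon
    have hB0 : 0 < B := Nat.ordCompl_pos p hN0
    have hB1 : B = 1 := by omega
    apply hpp
    rw [isPrimePow_nat_iff]
    refine ⟨p, N.factorization p, hpp', hpp'.factorization_pos_of_dvd hN0 (Nat.minFac_dvd N), ?_⟩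
    rw [hB1, mul_one] at hmul
    exact hmul
  rcases lt_trichotomy A B with h | h | h
  · exact ⟨B, A, by rw [mul_comm]; exact hmul.symm, hcop.symm, hA1, h⟩
  · rw [h] at hcop
    have := (Nat.coprime_self B).1 hcop
    omega
  · exact ⟨A, B, hmul.symm, hcop, hB1, h⟩

/-- **Disproof.** For every base `N ≥ 2` that is not a prime power (so `N = 6, 10, 12, ...`),
assertion (a) fails: some sequence `a` that is not eventually periodic has `T(a)` not of the form
`[B, 1 - B]`; more precisely `T(a)` is a single point larger than `1/2`. In particular it is false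
that (a) and (b) both hold for every `N ≥ 2` that is neither a power of `2` nor a power of `3`. -/
theorem result :
    (∀ N : ℕ, 2 ≤ N → ¬ IsPrimePow N →
      ∃ (a : ℕ → Fin N) (t : ℝ), ¬ EventuallyPeriodic a ∧ 1 / 2 < t ∧ t < 1 ∧
        accPoints N a = {t} ∧ ∀ B : ℝ, accPoints N a ≠ Set.Icc B (1 - B)) ∧
    ¬ (∀ N : ℕ, 2 ≤ N → (∀ k : ℕ, N ≠ 2 ^ k) → (∀ k : ℕ, N ≠ 3 ^ k) →
      AssertionA N ∧ AssertionB N) := by
  have main : ∀ N : ℕ, 2 ≤ N → ¬ IsPrimePow N →
      ∃ (a : ℕ → Fin N) (t : ℝ), ¬ EventuallyPeriodic a ∧ 1 / 2 < t ∧ t < 1 ∧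
        accPoints N a = {t} ∧ ∀ B : ℝ, accPoints N a ≠ Set.Icc B (1 - B) := by
    intro N hN hpp
    obtain ⟨P, Q, rfl, hPQ, hQ, hlt⟩ := exists_coprime_factors hN hpp
    obtain ⟨a, ha⟩ := exists_seq P Q (by omega) (by omega) hPQ
    have hN1 : (1 : ℝ) < ((P * Q : ℕ) : ℝ) := by exact_mod_cast (by omega : 1 < P * Q)
    have hPpos : (0 : ℝ) < (P : ℝ) := by exact_mod_cast (by omega : 0 < P)
    have ht : 1 / 2 < Real.logb ((P * Q : ℕ) : ℝ) P := by
      have h1 : ((P * Q : ℕ) : ℝ) < (P : ℝ) ^ 2 := by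
        have : P * Q < P ^ 2 := by nlinarith
        exact_mod_cast this
      have h2 : Real.logb ((P * Q : ℕ) : ℝ) ((P * Q : ℕ) : ℝ) <
          Real.logb ((P * Q : ℕ) : ℝ) ((P : ℝ) ^ 2) :=
        Real.logb_lt_logb hN1 (by linarith) h1
      rw [Real.logb_self_eq_one hN1, Real.logb_pow] at h2
      push_cast at h2 ⊢
      linarith
    have ht1 : Real.logb ((P * Q : ℕ) : ℝ) P < 1 := by
      have h1 : (P : ℝ) < ((P * Q : ℕ) : ℝ) := by
        have : P < P * Q := by nlinarith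
        exact_mod_cast this
      have h2 := Real.logb_lt_logb hN1 hPpos h1
      rwa [Real.logb_self_eq_one hN1] at h2
    refine ⟨a, Real.logb ((P * Q : ℕ) : ℝ) P, not_eventuallyPeriodic hPQ hQ hlt a ha, ht, ht1,
      accPoints_eq hPQ hQ hlt a ha, ?_⟩
    intro B hB
    rw [accPoints_eq hPQ hQ hlt a ha] at hB
    set t := Real.logb ((P * Q : ℕ) : ℝ) P
    have h1 : t ∈ Set.Icc B (1 - B) := by rw [← hB]; exact Set.mem_singleton t
    have h2 : B ∈ Set.Icc B (1 - B) := ⟨le_refl _, h1.1.trans h1.2⟩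
    have h3 : 1 - B ∈ Set.Icc B (1 - B) := ⟨h1.1.trans h1.2, le_refl _⟩
    rw [← hB, Set.mem_singleton_iff] at h2 h3
    linarith
  have main2 : ∀ N : ℕ, 2 ≤ N → ¬ IsPrimePow N → ¬ AssertionA N := by
    intro N hN hpp hA
    obtain ⟨a, t, h1, -, -, -, h2⟩ := main N hN hpp
    obtain ⟨B, hB⟩ := hA a h1
    exact h2 B hB
  refine ⟨main, ?_⟩
  intro h
  have h6 : ¬ IsPrimePow 6 := by
    rw [isPrimePow_nat_iff_bounded]
    decide
  refine main2 6 (by norm_num) h6 (h 6 (by norm_num) ?_ ?_).1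
  · intro k hk
    have h3 : 3 ∣ 2 ^ k := by rw [← hk]; norm_num
    have := Nat.Prime.dvd_of_dvd_pow Nat.prime_three h3
    omega
  · intro k hk
    have h3 : 2 ∣ 3 ^ k := by rw [← hk]; norm_num
    have := Nat.Prime.dvd_of_dvd_pow Nat.prime_two h3
    omega

end Pool.Agent.Results.MP_8b2777_lc.NonPrimePowerDisproof
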